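import Pool.Agent.H586R2.AF.Final

/-!
# Alexandrov foldability of polygons is decidable in polynomial time

Full positive answer to Q1 of MP_33efdc_lc.  One program of the real pointer machine of
`Pool.Agent.H586R2.AF.Model` (unit cost: exact real operations `+, -, *, /, √`, comparisons with
`0`, projections and pairing) decides, for every simple polygon with `n` vertices given by the
list of its vertex coordinates, in at most `C n ^ k` steps whether the polygon has an Alexandrov
gluing.
-/

set_option autoImplicit false

namespace Pool.Agent.Results.MP_33efdc_lc.FoldabilityInPolynomialTime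

open Pool.Agent.H586R2.AF

open Classical in
/-- **Alexandrov foldability is decidable in polynomial time.** -/
theorem result : ∃ (p : Prog) (C k : ℕ), ∀ P : List (ℝ × ℝ), IsPolygon P →
    ∃ t : ℕ, t ≤ C * P.length ^ k ∧
      ∀ (y : D) (t' : ℕ), Ev p (enc P) y t' ↔
        (t' = t ∧ y = if Foldable P then D.tt else D.nil) :=
  final

end Pool.Agent.Results.MP_33efdc_lc.FoldabilityInPolynomialTime
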